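import Mathlib
import Pool.Agent.Q252.RP16

/-!
# Growth in the base of the reversed-prime Schnirelmann constant

There is an absolute constant `C` such that for every base `b ≥ 2` the constant `K_b` of the reversed
primes in base `b` is finite and at most `C * log b`.
-/

set_option autoImplicit false

namespace Pool.Agent.Results.MP_eac634_nt.LogarithmicBound

/-- The digital reverse of `n` in base `b`: if `n = ∑ i < L, ε i * b ^ i` with `ε (L - 1) ≠ 0`, then
this is `∑ i < L, ε i * b ^ (L - 1 - i)`. -/
def reverse (b n : ℕ) : ℕ := Nat.ofDigits b (Nat.digits b n).reverse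

/-- `m` is a reversed prime in base `b`. -/
def IsReversedPrime (b m : ℕ) : Prop := ∃ p : ℕ, p.Prime ∧ m = reverse b p

/-- `N` is a sum of at most `K` reversed primes in base `b`, repetitions allowed. -/
def IsSumOfAtMost (b K N : ℕ) : Prop :=
  ∃ l : List ℕ, l.length ≤ K ∧ (∀ x ∈ l, IsReversedPrime b x) ∧ l.sum = N

/-- The integers `K ≥ 2` such that every sufficiently large integer is a sum of at most `K` reversed
primes in base `b`. -/
def admissible (b : ℕ) : Set ℕ :=
  {K | 2 ≤ K ∧ ∃ N₀ : ℕ, ∀ N : ℕ, N₀ ≤ N → IsSumOfAtMost b K N}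

/-- The constant `K_b`: the least element of `admissible b` (meaningful when this set is nonempty). -/
noncomputable def constK (b : ℕ) : ℕ := sInf (admissible b)

/-- There is an absolute constant `C > 0` such that for every base `b ≥ 2` the set `admissible b` is
nonempty (that is, `K_b` is finite) and `K_b ≤ C * log b`. -/
theorem result : ∃ C : ℝ, 0 < C ∧ ∀ b : ℕ, 2 ≤ b →
    (admissible b).Nonempty ∧ (constK b : ℝ) ≤ C * Real.log b := by
  obtain ⟨C, hC, h⟩ := Q252.RP.uniform
  refine ⟨C, hC, fun b hb => ?_⟩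
  obtain ⟨K, hK, hKC, N₀, hN⟩ := h b hb
  have hmem : K ∈ admissible b := ⟨hK, N₀, hN⟩
  refine ⟨⟨K, hmem⟩, ?_⟩
  have h1 : (constK b : ℝ) ≤ K := by exact_mod_cast Nat.sInf_le hmem
  exact h1.trans hKC

end Pool.Agent.Results.MP_eac634_nt.LogarithmicBound
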